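import Pool.Agent.R805.Bip.Defs

/-!
# A matched diagram of the knot `8_18` (problem MP_c6d8e2)

The diagrams `d0` (a matched diagram with 12 crossings), `d1`, ..., `d21` (8 crossings) are
connected by Reidemeister moves; `d21` is the closure of the braid `(σ₁ σ₂⁻¹)⁴` with other labels.
-/

namespace Pool.Agent.R805.Bip

/-- Diagram number 0, with 12 crossings. -/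
def d0 : PD :=
  [⟨0, 1, 2, 3⟩, ⟨1, 0, 4, 5⟩, ⟨4, 6, 7, 8⟩, ⟨9, 10, 8, 7⟩, ⟨11, 10, 12, 13⟩,
    ⟨13, 14, 5, 11⟩, ⟨2, 15, 16, 17⟩, ⟨18, 16, 15, 14⟩, ⟨19, 20, 18, 12⟩,
    ⟨20, 19, 9, 21⟩, ⟨22, 6, 3, 23⟩, ⟨23, 17, 21, 22⟩]

/-- Diagram number 1, with 14 crossings. -/
def d1 : PD :=
  [⟨4, 26, 27, 3⟩, ⟨27, 26, 25, 24⟩, ⟨0, 1, 2, 24⟩, ⟨1, 0, 25, 5⟩, ⟨4, 6, 7, 8⟩,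
    ⟨9, 10, 8, 7⟩, ⟨11, 10, 12, 13⟩, ⟨13, 14, 5, 11⟩, ⟨2, 15, 16, 17⟩, ⟨18, 16, 15, 14⟩,
    ⟨19, 20, 18, 12⟩, ⟨20, 19, 9, 21⟩, ⟨22, 6, 3, 23⟩, ⟨23, 17, 21, 22⟩]

/-- Diagram number 2, with 14 crossings. -/
def d2 : PD :=
  [⟨0, 26, 5, 24⟩, ⟨25, 24, 1, 1⟩, ⟨27, 0, 25, 2⟩, ⟨4, 26, 27, 3⟩, ⟨4, 6, 7, 8⟩,
    ⟨9, 10, 8, 7⟩, ⟨11, 10, 12, 13⟩, ⟨13, 14, 5, 11⟩, ⟨2, 15, 16, 17⟩, ⟨18, 16, 15, 14⟩,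
    ⟨19, 20, 18, 12⟩, ⟨20, 19, 9, 21⟩, ⟨22, 6, 3, 23⟩, ⟨23, 17, 21, 22⟩]

/-- Diagram number 3, with 13 crossings. -/
def d3 : PD :=
  [⟨0, 26, 5, 25⟩, ⟨27, 0, 25, 2⟩, ⟨4, 26, 27, 3⟩, ⟨4, 6, 7, 8⟩, ⟨9, 10, 8, 7⟩,
    ⟨11, 10, 12, 13⟩, ⟨13, 14, 5, 11⟩, ⟨2, 15, 16, 17⟩, ⟨18, 16, 15, 14⟩,
    ⟨19, 20, 18, 12⟩, ⟨20, 19, 9, 21⟩, ⟨22, 6, 3, 23⟩, ⟨23, 17, 21, 22⟩]

/-- Diagram number 4, with 13 crossings. -/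
def d4 : PD :=
  [⟨3, 8, 26, 6⟩, ⟨4, 6, 27, 23⟩, ⟨7, 3, 4, 22⟩, ⟨0, 26, 5, 25⟩, ⟨27, 0, 25, 2⟩,
    ⟨9, 10, 8, 7⟩, ⟨11, 10, 12, 13⟩, ⟨13, 14, 5, 11⟩, ⟨2, 15, 16, 17⟩, ⟨18, 16, 15, 14⟩,
    ⟨19, 20, 18, 12⟩, ⟨20, 19, 9, 21⟩, ⟨23, 17, 21, 22⟩]

/-- Diagram number 5, with 13 crossings. -/
def d5 : PD :=
  [⟨23, 3, 6, 22⟩, ⟨4, 22, 27, 17⟩, ⟨7, 23, 4, 21⟩, ⟨3, 8, 26, 6⟩, ⟨0, 26, 5, 25⟩,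
    ⟨27, 0, 25, 2⟩, ⟨9, 10, 8, 7⟩, ⟨11, 10, 12, 13⟩, ⟨13, 14, 5, 11⟩, ⟨2, 15, 16, 17⟩,
    ⟨18, 16, 15, 14⟩, ⟨19, 20, 18, 12⟩, ⟨20, 19, 9, 21⟩]

/-- Diagram number 6, with 13 crossings. -/
def d6 : PD :=
  [⟨2, 22, 0, 17⟩, ⟨27, 17, 25, 15⟩, ⟨4, 2, 27, 16⟩, ⟨23, 3, 6, 22⟩, ⟨7, 23, 4, 21⟩,
    ⟨3, 8, 26, 6⟩, ⟨0, 26, 5, 25⟩, ⟨9, 10, 8, 7⟩, ⟨11, 10, 12, 13⟩, ⟨13, 14, 5, 11⟩,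
    ⟨18, 16, 15, 14⟩, ⟨19, 20, 18, 12⟩, ⟨20, 19, 9, 21⟩]

/-- Diagram number 7, with 13 crossings. -/
def d7 : PD :=
  [⟨25, 22, 26, 17⟩, ⟨0, 17, 5, 15⟩, ⟨2, 25, 0, 27⟩, ⟨4, 2, 27, 16⟩, ⟨23, 3, 6, 22⟩,
    ⟨7, 23, 4, 21⟩, ⟨3, 8, 26, 6⟩, ⟨9, 10, 8, 7⟩, ⟨11, 10, 12, 13⟩, ⟨13, 14, 5, 11⟩,
    ⟨18, 16, 15, 14⟩, ⟨19, 20, 18, 12⟩, ⟨20, 19, 9, 21⟩]

/-- Diagram number 8, with 13 crossings. -/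
def d8 : PD :=
  [⟨26, 3, 3, 22⟩, ⟨6, 22, 8, 17⟩, ⟨25, 23, 26, 6⟩, ⟨0, 17, 5, 15⟩, ⟨2, 25, 0, 27⟩,
    ⟨4, 2, 27, 16⟩, ⟨7, 23, 4, 21⟩, ⟨9, 10, 8, 7⟩, ⟨11, 10, 12, 13⟩, ⟨13, 14, 5, 11⟩,
    ⟨18, 16, 15, 14⟩, ⟨19, 20, 18, 12⟩, ⟨20, 19, 9, 21⟩]

/-- Diagram number 9, with 12 crossings. -/
def d9 : PD :=
  [⟨6, 26, 8, 17⟩, ⟨25, 23, 26, 6⟩, ⟨0, 17, 5, 15⟩, ⟨2, 25, 0, 27⟩, ⟨4, 2, 27, 16⟩,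
    ⟨7, 23, 4, 21⟩, ⟨9, 10, 8, 7⟩, ⟨11, 10, 12, 13⟩, ⟨13, 14, 5, 11⟩, ⟨18, 16, 15, 14⟩,
    ⟨19, 20, 18, 12⟩, ⟨20, 19, 9, 21⟩]

/-- Diagram number 10, with 12 crossings. -/
def d10 : PD :=
  [⟨7, 19, 10, 21⟩, ⟨9, 21, 8, 23⟩, ⟨20, 7, 9, 4⟩, ⟨6, 26, 8, 17⟩, ⟨25, 23, 26, 6⟩,
    ⟨0, 17, 5, 15⟩, ⟨2, 25, 0, 27⟩, ⟨4, 2, 27, 16⟩, ⟨11, 10, 12, 13⟩, ⟨13, 14, 5, 11⟩,
    ⟨18, 16, 15, 14⟩, ⟨19, 20, 18, 12⟩]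

/-- Diagram number 11, with 12 crossings. -/
def d11 : PD :=
  [⟨26, 21, 17, 23⟩, ⟨8, 23, 6, 6⟩, ⟨9, 26, 8, 25⟩, ⟨7, 19, 10, 21⟩, ⟨20, 7, 9, 4⟩,
    ⟨0, 17, 5, 15⟩, ⟨2, 25, 0, 27⟩, ⟨4, 2, 27, 16⟩, ⟨11, 10, 12, 13⟩, ⟨13, 14, 5, 11⟩,
    ⟨18, 16, 15, 14⟩, ⟨19, 20, 18, 12⟩]

/-- Diagram number 12, with 11 crossings. -/
def d12 : PD :=
  [⟨26, 21, 17, 8⟩, ⟨9, 26, 8, 25⟩, ⟨7, 19, 10, 21⟩, ⟨20, 7, 9, 4⟩, ⟨0, 17, 5, 15⟩,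
    ⟨2, 25, 0, 27⟩, ⟨4, 2, 27, 16⟩, ⟨11, 10, 12, 13⟩, ⟨13, 14, 5, 11⟩, ⟨18, 16, 15, 14⟩,
    ⟨19, 20, 18, 12⟩]

/-- Diagram number 13, with 11 crossings. -/
def d13 : PD :=
  [⟨5, 16, 0, 14⟩, ⟨15, 14, 17, 11⟩, ⟨13, 18, 5, 15⟩, ⟨26, 21, 17, 8⟩, ⟨9, 26, 8, 25⟩,
    ⟨7, 19, 10, 21⟩, ⟨20, 7, 9, 4⟩, ⟨2, 25, 0, 27⟩, ⟨4, 2, 27, 16⟩, ⟨11, 10, 12, 13⟩,
    ⟨19, 20, 18, 12⟩]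

/-- Diagram number 14, with 11 crossings. -/
def d14 : PD :=
  [⟨0, 2, 2, 16⟩, ⟨27, 16, 25, 14⟩, ⟨5, 4, 0, 27⟩, ⟨15, 14, 17, 11⟩, ⟨13, 18, 5, 15⟩,
    ⟨26, 21, 17, 8⟩, ⟨9, 26, 8, 25⟩, ⟨7, 19, 10, 21⟩, ⟨20, 7, 9, 4⟩, ⟨11, 10, 12, 13⟩,
    ⟨19, 20, 18, 12⟩]

/-- Diagram number 15, with 10 crossings. -/
def d15 : PD :=
  [⟨27, 0, 25, 14⟩, ⟨5, 4, 0, 27⟩, ⟨15, 14, 17, 11⟩, ⟨13, 18, 5, 15⟩, ⟨26, 21, 17, 8⟩,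
    ⟨9, 26, 8, 25⟩, ⟨7, 19, 10, 21⟩, ⟨20, 7, 9, 4⟩, ⟨11, 10, 12, 13⟩, ⟨19, 20, 18, 12⟩]

/-- Diagram number 16, with 12 crossings. -/
def d16 : PD :=
  [⟨20, 3, 6, 5⟩, ⟨6, 3, 2, 1⟩, ⟨27, 0, 25, 14⟩, ⟨1, 4, 0, 27⟩, ⟨15, 14, 17, 11⟩,
    ⟨13, 18, 5, 15⟩, ⟨26, 21, 17, 8⟩, ⟨9, 26, 8, 25⟩, ⟨7, 19, 10, 21⟩, ⟨2, 7, 9, 4⟩,
    ⟨11, 10, 12, 13⟩, ⟨19, 20, 18, 12⟩]

/-- Diagram number 17, with 12 crossings. -/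
def d17 : PD :=
  [⟨2, 27, 6, 4⟩, ⟨1, 4, 3, 7⟩, ⟨9, 0, 2, 1⟩, ⟨20, 3, 6, 5⟩, ⟨27, 0, 25, 14⟩,
    ⟨15, 14, 17, 11⟩, ⟨13, 18, 5, 15⟩, ⟨26, 21, 17, 8⟩, ⟨9, 26, 8, 25⟩, ⟨7, 19, 10, 21⟩,
    ⟨11, 10, 12, 13⟩, ⟨19, 20, 18, 12⟩]

/-- Diagram number 18, with 12 crossings. -/
def d18 : PD :=
  [⟨2, 14, 6, 0⟩, ⟨27, 0, 4, 1⟩, ⟨9, 25, 2, 27⟩, ⟨1, 4, 3, 7⟩, ⟨20, 3, 6, 5⟩,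
    ⟨15, 14, 17, 11⟩, ⟨13, 18, 5, 15⟩, ⟨26, 21, 17, 8⟩, ⟨9, 26, 8, 25⟩, ⟨7, 19, 10, 21⟩,
    ⟨11, 10, 12, 13⟩, ⟨19, 20, 18, 12⟩]

/-- Diagram number 19, with 10 crossings. -/
def d19 : PD :=
  [⟨8, 14, 6, 0⟩, ⟨26, 0, 4, 1⟩, ⟨1, 4, 3, 7⟩, ⟨20, 3, 6, 5⟩, ⟨15, 14, 17, 11⟩,
    ⟨13, 18, 5, 15⟩, ⟨26, 21, 17, 8⟩, ⟨7, 19, 10, 21⟩, ⟨11, 10, 12, 13⟩, ⟨19, 20, 18, 12⟩]

/-- Diagram number 20, with 10 crossings. -/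
def d20 : PD :=
  [⟨8, 1, 21, 0⟩, ⟨26, 0, 17, 14⟩, ⟨4, 8, 26, 6⟩, ⟨1, 4, 3, 7⟩, ⟨20, 3, 6, 5⟩,
    ⟨15, 14, 17, 11⟩, ⟨13, 18, 5, 15⟩, ⟨7, 19, 10, 21⟩, ⟨11, 10, 12, 13⟩, ⟨19, 20, 18, 12⟩]

/-- Diagram number 21, with 8 crossings. -/
def d21 : PD :=
  [⟨8, 1, 21, 11⟩, ⟨4, 8, 15, 6⟩, ⟨1, 4, 3, 7⟩, ⟨20, 3, 6, 5⟩, ⟨13, 18, 5, 15⟩,
    ⟨7, 19, 10, 21⟩, ⟨11, 10, 12, 13⟩, ⟨19, 20, 18, 12⟩]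

theorem h0 : IsDiagram d0 = true := by decide +kernel

theorem h1 : IsDiagram d1 = true := by decide +kernel

theorem h2 : IsDiagram d2 = true := by decide +kernel

theorem h3 : IsDiagram d3 = true := by decide +kernel

theorem h4 : IsDiagram d4 = true := by decide +kernel

theorem h5 : IsDiagram d5 = true := by decide +kernel

theorem h6 : IsDiagram d6 = true := by decide +kernel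

theorem h7 : IsDiagram d7 = true := by decide +kernel

theorem h8 : IsDiagram d8 = true := by decide +kernel

theorem h9 : IsDiagram d9 = true := by decide +kernel

theorem h10 : IsDiagram d10 = true := by decide +kernel

theorem h11 : IsDiagram d11 = true := by decide +kernel

theorem h12 : IsDiagram d12 = true := by decide +kernel

theorem h13 : IsDiagram d13 = true := by decide +kernel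

theorem h14 : IsDiagram d14 = true := by decide +kernel

theorem h15 : IsDiagram d15 = true := by decide +kernel

theorem h16 : IsDiagram d16 = true := by decide +kernel

theorem h17 : IsDiagram d17 = true := by decide +kernel

theorem h18 : IsDiagram d18 = true := by decide +kernel

theorem h19 : IsDiagram d19 = true := by decide +kernel

theorem h20 : IsDiagram d20 = true := by decide +kernel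

theorem h21 : IsDiagram d21 = true := by decide +kernel

theorem s1 : Equivalent d0 d1 :=
  Relation.EqvGen.symm _ _ (Relation.EqvGen.rel _ _ ⟨h1, h0, _, _, by decide +kernel,
    Move.r2 4 24 25 3 26 27
    [⟨0, 1, 2, 24⟩, ⟨1, 0, 25, 5⟩, ⟨4, 6, 7, 8⟩, ⟨9, 10, 8, 7⟩, ⟨11, 10, 12, 13⟩,
    ⟨13, 14, 5, 11⟩, ⟨2, 15, 16, 17⟩, ⟨18, 16, 15, 14⟩, ⟨19, 20, 18, 12⟩,
    ⟨20, 19, 9, 21⟩, ⟨22, 6, 3, 23⟩, ⟨23, 17, 21, 22⟩], by decide +kernel⟩)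

theorem s2 : Equivalent d1 d2 :=
  Relation.EqvGen.rel _ _ ⟨h1, h2, _, _, by decide +kernel, Move.r3a 24 1 26 0 2 5 25 27 1
    [⟨4, 26, 27, 3⟩, ⟨4, 6, 7, 8⟩, ⟨9, 10, 8, 7⟩, ⟨11, 10, 12, 13⟩, ⟨13, 14, 5, 11⟩,
    ⟨2, 15, 16, 17⟩, ⟨18, 16, 15, 14⟩, ⟨19, 20, 18, 12⟩, ⟨20, 19, 9, 21⟩, ⟨22, 6, 3, 23⟩,
    ⟨23, 17, 21, 22⟩], by decide +kernel⟩

theorem s3 : Equivalent d2 d3 :=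
  Relation.EqvGen.rel _ _ ⟨h2, h3, _, _, by decide +kernel, Move.r1a 1 25 24
    [⟨0, 26, 5, 24⟩, ⟨27, 0, 25, 2⟩, ⟨4, 26, 27, 3⟩, ⟨4, 6, 7, 8⟩, ⟨9, 10, 8, 7⟩,
    ⟨11, 10, 12, 13⟩, ⟨13, 14, 5, 11⟩, ⟨2, 15, 16, 17⟩, ⟨18, 16, 15, 14⟩,
    ⟨19, 20, 18, 12⟩, ⟨20, 19, 9, 21⟩, ⟨22, 6, 3, 23⟩, ⟨23, 17, 21, 22⟩], by decide +kernel⟩

theorem s4 : Equivalent d3 d4 :=
  Relation.EqvGen.rel _ _ ⟨h3, h4, _, _, by decide +kernel, Move.r3a 6 23 8 3 22 26 4 7 27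
    [⟨0, 26, 5, 25⟩, ⟨27, 0, 25, 2⟩, ⟨9, 10, 8, 7⟩, ⟨11, 10, 12, 13⟩, ⟨13, 14, 5, 11⟩,
    ⟨2, 15, 16, 17⟩, ⟨18, 16, 15, 14⟩, ⟨19, 20, 18, 12⟩, ⟨20, 19, 9, 21⟩, ⟨23, 17, 21, 22⟩], by decide +kernel⟩

theorem s5 : Equivalent d4 d5 :=
  Relation.EqvGen.rel _ _ ⟨h4, h5, _, _, by decide +kernel, Move.r3a 22 17 3 23 21 6 4 7 27
    [⟨3, 8, 26, 6⟩, ⟨0, 26, 5, 25⟩, ⟨27, 0, 25, 2⟩, ⟨9, 10, 8, 7⟩, ⟨11, 10, 12, 13⟩,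
    ⟨13, 14, 5, 11⟩, ⟨2, 15, 16, 17⟩, ⟨18, 16, 15, 14⟩, ⟨19, 20, 18, 12⟩, ⟨20, 19, 9, 21⟩], by decide +kernel⟩

theorem s6 : Equivalent d5 d6 :=
  Relation.EqvGen.rel _ _ ⟨h5, h6, _, _, by decide +kernel, Move.r3a 17 15 22 2 16 0 27 4 25
    [⟨23, 3, 6, 22⟩, ⟨7, 23, 4, 21⟩, ⟨3, 8, 26, 6⟩, ⟨0, 26, 5, 25⟩, ⟨9, 10, 8, 7⟩,
    ⟨11, 10, 12, 13⟩, ⟨13, 14, 5, 11⟩, ⟨18, 16, 15, 14⟩, ⟨19, 20, 18, 12⟩, ⟨20, 19, 9, 21⟩], by decide +kernel⟩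

theorem s7 : Equivalent d6 d7 :=
  Relation.EqvGen.rel _ _ ⟨h6, h7, _, _, by decide +kernel, Move.r3a 17 15 22 25 27 26 0 2 5
    [⟨4, 2, 27, 16⟩, ⟨23, 3, 6, 22⟩, ⟨7, 23, 4, 21⟩, ⟨3, 8, 26, 6⟩, ⟨9, 10, 8, 7⟩,
    ⟨11, 10, 12, 13⟩, ⟨13, 14, 5, 11⟩, ⟨18, 16, 15, 14⟩, ⟨19, 20, 18, 12⟩, ⟨20, 19, 9, 21⟩], by decide +kernel⟩

theorem s8 : Equivalent d7 d8 :=
  Relation.EqvGen.rel _ _ ⟨h7, h8, _, _, by decide +kernel, Move.r3b 22 17 3 6 23 8 26 25 3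
    [⟨0, 17, 5, 15⟩, ⟨2, 25, 0, 27⟩, ⟨4, 2, 27, 16⟩, ⟨7, 23, 4, 21⟩, ⟨9, 10, 8, 7⟩,
    ⟨11, 10, 12, 13⟩, ⟨13, 14, 5, 11⟩, ⟨18, 16, 15, 14⟩, ⟨19, 20, 18, 12⟩, ⟨20, 19, 9, 21⟩], by decide +kernel⟩

theorem s9 : Equivalent d8 d9 :=
  Relation.EqvGen.rel _ _ ⟨h8, h9, _, _, by decide +kernel, Move.r1b 3 26 22
    [⟨6, 22, 8, 17⟩, ⟨25, 23, 26, 6⟩, ⟨0, 17, 5, 15⟩, ⟨2, 25, 0, 27⟩, ⟨4, 2, 27, 16⟩,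
    ⟨7, 23, 4, 21⟩, ⟨9, 10, 8, 7⟩, ⟨11, 10, 12, 13⟩, ⟨13, 14, 5, 11⟩, ⟨18, 16, 15, 14⟩,
    ⟨19, 20, 18, 12⟩, ⟨20, 19, 9, 21⟩], by decide +kernel⟩

theorem s10 : Equivalent d9 d10 :=
  Relation.EqvGen.rel _ _ ⟨h9, h10, _, _, by decide +kernel, Move.r3a 21 23 19 7 4 10 9 20 8
    [⟨6, 26, 8, 17⟩, ⟨25, 23, 26, 6⟩, ⟨0, 17, 5, 15⟩, ⟨2, 25, 0, 27⟩, ⟨4, 2, 27, 16⟩,
    ⟨11, 10, 12, 13⟩, ⟨13, 14, 5, 11⟩, ⟨18, 16, 15, 14⟩, ⟨19, 20, 18, 12⟩], by decide +kernel⟩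

theorem s11 : Equivalent d10 d11 :=
  Relation.EqvGen.rel _ _ ⟨h10, h11, _, _, by decide +kernel, Move.r3a 23 6 21 26 25 17 8 9 6
    [⟨7, 19, 10, 21⟩, ⟨20, 7, 9, 4⟩, ⟨0, 17, 5, 15⟩, ⟨2, 25, 0, 27⟩, ⟨4, 2, 27, 16⟩,
    ⟨11, 10, 12, 13⟩, ⟨13, 14, 5, 11⟩, ⟨18, 16, 15, 14⟩, ⟨19, 20, 18, 12⟩], by decide +kernel⟩

theorem s12 : Equivalent d11 d12 :=
  Relation.EqvGen.rel _ _ ⟨h11, h12, _, _, by decide +kernel, Move.r1a 6 8 23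
    [⟨26, 21, 17, 23⟩, ⟨9, 26, 8, 25⟩, ⟨7, 19, 10, 21⟩, ⟨20, 7, 9, 4⟩, ⟨0, 17, 5, 15⟩,
    ⟨2, 25, 0, 27⟩, ⟨4, 2, 27, 16⟩, ⟨11, 10, 12, 13⟩, ⟨13, 14, 5, 11⟩, ⟨18, 16, 15, 14⟩,
    ⟨19, 20, 18, 12⟩], by decide +kernel⟩

theorem s13 : Equivalent d12 d13 :=
  Relation.EqvGen.rel _ _ ⟨h12, h13, _, _, by decide +kernel, Move.r3b 14 11 16 15 18 17 5 13 0
    [⟨26, 21, 17, 8⟩, ⟨9, 26, 8, 25⟩, ⟨7, 19, 10, 21⟩, ⟨20, 7, 9, 4⟩, ⟨2, 25, 0, 27⟩,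
    ⟨4, 2, 27, 16⟩, ⟨11, 10, 12, 13⟩, ⟨19, 20, 18, 12⟩], by decide +kernel⟩

theorem s14 : Equivalent d13 d14 :=
  Relation.EqvGen.rel _ _ ⟨h13, h14, _, _, by decide +kernel, Move.r3b 16 14 2 27 4 25 0 5 2
    [⟨15, 14, 17, 11⟩, ⟨13, 18, 5, 15⟩, ⟨26, 21, 17, 8⟩, ⟨9, 26, 8, 25⟩, ⟨7, 19, 10, 21⟩,
    ⟨20, 7, 9, 4⟩, ⟨11, 10, 12, 13⟩, ⟨19, 20, 18, 12⟩], by decide +kernel⟩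

theorem s15 : Equivalent d14 d15 :=
  Relation.EqvGen.rel _ _ ⟨h14, h15, _, _, by decide +kernel, Move.r1b 2 0 16
    [⟨27, 16, 25, 14⟩, ⟨5, 4, 0, 27⟩, ⟨15, 14, 17, 11⟩, ⟨13, 18, 5, 15⟩, ⟨26, 21, 17, 8⟩,
    ⟨9, 26, 8, 25⟩, ⟨7, 19, 10, 21⟩, ⟨20, 7, 9, 4⟩, ⟨11, 10, 12, 13⟩, ⟨19, 20, 18, 12⟩], by decide +kernel⟩

theorem s16 : Equivalent d15 d16 :=
  Relation.EqvGen.symm _ _ (Relation.EqvGen.rel _ _ ⟨h16, h15, _, _, by decide +kernel,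
    Move.r2 20 1 2 5 3 6
    [⟨27, 0, 25, 14⟩, ⟨1, 4, 0, 27⟩, ⟨15, 14, 17, 11⟩, ⟨13, 18, 5, 15⟩, ⟨26, 21, 17, 8⟩,
    ⟨9, 26, 8, 25⟩, ⟨7, 19, 10, 21⟩, ⟨2, 7, 9, 4⟩, ⟨11, 10, 12, 13⟩, ⟨19, 20, 18, 12⟩], by decide +kernel⟩)

theorem s17 : Equivalent d16 d17 :=
  Relation.EqvGen.rel _ _ ⟨h16, h17, _, _, by decide +kernel, Move.r3b 4 7 27 1 0 3 2 9 6
    [⟨20, 3, 6, 5⟩, ⟨27, 0, 25, 14⟩, ⟨15, 14, 17, 11⟩, ⟨13, 18, 5, 15⟩, ⟨26, 21, 17, 8⟩,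
    ⟨9, 26, 8, 25⟩, ⟨7, 19, 10, 21⟩, ⟨11, 10, 12, 13⟩, ⟨19, 20, 18, 12⟩], by decide +kernel⟩

theorem s18 : Equivalent d17 d18 :=
  Relation.EqvGen.rel _ _ ⟨h17, h18, _, _, by decide +kernel, Move.r3b 0 1 14 27 25 4 2 9 6
    [⟨1, 4, 3, 7⟩, ⟨20, 3, 6, 5⟩, ⟨15, 14, 17, 11⟩, ⟨13, 18, 5, 15⟩, ⟨26, 21, 17, 8⟩,
    ⟨9, 26, 8, 25⟩, ⟨7, 19, 10, 21⟩, ⟨11, 10, 12, 13⟩, ⟨19, 20, 18, 12⟩], by decide +kernel⟩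

theorem s19 : Equivalent d18 d19 :=
  Relation.EqvGen.rel _ _ ⟨h18, h19, _, _, by decide +kernel, Move.r2 8 27 2 26 25 9
    [⟨2, 14, 6, 0⟩, ⟨27, 0, 4, 1⟩, ⟨1, 4, 3, 7⟩, ⟨20, 3, 6, 5⟩, ⟨15, 14, 17, 11⟩,
    ⟨13, 18, 5, 15⟩, ⟨26, 21, 17, 8⟩, ⟨7, 19, 10, 21⟩, ⟨11, 10, 12, 13⟩, ⟨19, 20, 18, 12⟩], by decide +kernel⟩

theorem s20 : Equivalent d19 d20 :=
  Relation.EqvGen.rel _ _ ⟨h19, h20, _, _, by decide +kernel, Move.r3a 0 14 1 8 6 21 26 4 17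
    [⟨1, 4, 3, 7⟩, ⟨20, 3, 6, 5⟩, ⟨15, 14, 17, 11⟩, ⟨13, 18, 5, 15⟩, ⟨7, 19, 10, 21⟩,
    ⟨11, 10, 12, 13⟩, ⟨19, 20, 18, 12⟩], by decide +kernel⟩

theorem s21 : Equivalent d20 d21 :=
  Relation.EqvGen.rel _ _ ⟨h20, h21, _, _, by decide +kernel, Move.r2 15 0 26 11 14 17
    [⟨8, 1, 21, 0⟩, ⟨4, 8, 26, 6⟩, ⟨1, 4, 3, 7⟩, ⟨20, 3, 6, 5⟩, ⟨13, 18, 5, 15⟩,
    ⟨7, 19, 10, 21⟩, ⟨11, 10, 12, 13⟩, ⟨19, 20, 18, 12⟩], by decide +kernel⟩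

/-- The change of labels from `d21` to `knot818`. -/
def rel818 (z : ℕ) : ℕ :=
  ((([(8, 6), (1, 5), (21, 4), (11, 2), (4, 8), (15, 10), (6, 9), (3, 7), (7, 3), (20, 11), (5, 12), (13, 14), (18, 13), (19, 0), (10, 1), (12, 16)] :
    List (ℕ × ℕ)).lookup z).getD z)

theorem h818 : IsDiagram knot818 = true := by decide +kernel

theorem s818 : Equivalent d21 knot818 :=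
  Relation.EqvGen.rel _ _ ⟨h21, h818, _, _, by decide +kernel, Move.relabel rel818 d21
    (by decide +kernel), by decide +kernel⟩

theorem d0_equiv : Equivalent knot818 d0 :=
  Relation.EqvGen.symm _ _ (Relation.EqvGen.trans _ _ _ s1 <| Relation.EqvGen.trans _ _ _ s2 <| Relation.EqvGen.trans _ _ _ s3 <| Relation.EqvGen.trans _ _ _ s4 <| Relation.EqvGen.trans _ _ _ s5 <| Relation.EqvGen.trans _ _ _ s6 <| Relation.EqvGen.trans _ _ _ s7 <| Relation.EqvGen.trans _ _ _ s8 <| Relation.EqvGen.trans _ _ _ s9 <| Relation.EqvGen.trans _ _ _ s10 <| Relation.EqvGen.trans _ _ _ s11 <| Relation.EqvGen.trans _ _ _ s12 <| Relation.EqvGen.trans _ _ _ s13 <| Relation.EqvGen.trans _ _ _ s14 <| Relation.EqvGen.trans _ _ _ s15 <| Relation.EqvGen.trans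 _ _ _ s16 <| Relation.EqvGen.trans _ _ _ s17 <| Relation.EqvGen.trans _ _ _ s18 <| Relation.EqvGen.trans _ _ _ s19 <| Relation.EqvGen.trans _ _ _ s20 <| Relation.EqvGen.trans _ _ _ s21 <| s818)

/-- The matched pairs of `d0`, with an orientation. -/
def pairs0 : List (OCr × OCr) :=
  [(⟨⟨1, 0, 4, 5⟩, false, true⟩, ⟨⟨0, 1, 2, 3⟩, false, true⟩),
    (⟨⟨8, 7, 9, 10⟩, true, false⟩, ⟨⟨7, 8, 4, 6⟩, true, false⟩),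
    (⟨⟨5, 11, 13, 14⟩, true, true⟩, ⟨⟨12, 13, 11, 10⟩, true, true⟩),
    (⟨⟨18, 16, 15, 14⟩, false, false⟩, ⟨⟨2, 15, 16, 17⟩, false, false⟩),
    (⟨⟨20, 19, 9, 21⟩, false, true⟩, ⟨⟨19, 20, 18, 12⟩, false, true⟩),
    (⟨⟨21, 22, 23, 17⟩, true, true⟩, ⟨⟨3, 23, 22, 6⟩, true, true⟩)]

theorem d0_matched : Matched d0 := by
  refine ⟨pairs0, by decide +kernel, by decide +kernel, ?_⟩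
  intro p hp
  simp only [pairs0, List.mem_cons, List.not_mem_nil, or_false] at hp
  rcases hp with rfl | rfl | rfl | rfl | rfl | rfl
  · exact ⟨1, 0, ⟨4, 3, 2, 5, Or.inr ⟨rfl, rfl⟩⟩, Or.inr ⟨by decide, by decide⟩⟩
  · exact ⟨8, 7, ⟨9, 6, 4, 10, Or.inr ⟨rfl, rfl⟩⟩, Or.inl ⟨by decide, by decide⟩⟩
  · exact ⟨11, 13, ⟨5, 10, 12, 14, Or.inl ⟨rfl, rfl⟩⟩, Or.inl ⟨by decide, by decide⟩⟩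
  · exact ⟨16, 15, ⟨18, 17, 2, 14, Or.inl ⟨rfl, rfl⟩⟩, Or.inr ⟨by decide, by decide⟩⟩
  · exact ⟨20, 19, ⟨9, 12, 18, 21, Or.inr ⟨rfl, rfl⟩⟩, Or.inr ⟨by decide, by decide⟩⟩
  · exact ⟨22, 23, ⟨21, 6, 3, 17, Or.inl ⟨rfl, rfl⟩⟩, Or.inl ⟨by decide, by decide⟩⟩

end Pool.Agent.R805.Bip
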