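import Mathlib

/-!
# Matched diagrams and the knot `8_18`: definitions (problem MP_c6d8e2)

## Knot diagrams as planar diagram codes

A knot diagram on the sphere (or in the plane) is given by its planar diagram code.  The edges of
the diagram (arcs between consecutive crossings) are labelled by natural numbers, and every
crossing is recorded by the labels of the four edge ends around it, in counterclockwise order,
starting with an end of the under strand: `⟨a, b, c, d⟩` is a crossing at which the under
strand joins the edges `a` and `c` and the over strand joins the edges `b` and `d`.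

The code is a list of crossings; neither the order of the crossings, nor the choice between
`⟨a, b, c, d⟩` and `⟨c, d, a, b⟩` (`Same`), nor the labels matter.

`IsDiagram D` says that `D` is the code of a knot diagram on the sphere: every label occurs
exactly twice, walking straight ahead at all crossings one passes through all edges (so there is
exactly one component and the diagram is connected), and the surface obtained by glueing discs to
the faces is a sphere (the number of faces is the number of crossings plus `2`).
-/

namespace Pool.Agent.R805.Bip

/-- A crossing: the labels of the four edges around it in counterclockwise order; `a`, `c` belong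
to the under strand and `b`, `d` to the over strand. -/
structure Cr where
  a : ℕ
  b : ℕ
  c : ℕ
  d : ℕ
  deriving DecidableEq

/-- A planar diagram code. -/
abbrev PD := List Cr

/-- The labels around a crossing. -/
def Cr.labels (x : Cr) : List ℕ := [x.a, x.b, x.c, x.d]

/-- All labels of a code: the entry number `4 i + k` is the label of the edge end (dart) number
`k` of the crossing number `i`. -/
def labels (D : PD) : List ℕ := D.flatMap Cr.labels

/-- The position of the other dart with the same label as dart number `k`. -/
def other (l : List ℕ) (k : ℕ) : ℕ :=
  ((List.range l.length).find? (fun j => j != k && l.getD j 0 == l.getD k 0)).getD k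

/-- The dart which follows `k` counterclockwise (`i = 1`), is opposite to it (`i = 2`) or
precedes it (`i = 3`) at its crossing. -/
def turn (i k : ℕ) : ℕ := 4 * (k / 4) + (k + i) % 4

/-- The permutation whose orbits are the faces: go along the edge, then turn clockwise. -/
def faceMap (l : List ℕ) : List ℕ := (List.range l.length).map (fun k => turn 3 (other l k))

/-- The permutation whose orbits are the two oriented versions of every component: go along the
edge, then straight ahead. -/
def strandMap (l : List ℕ) : List ℕ := (List.range l.length).map (fun k => turn 2 (other l k))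

/-- Follow the permutation `t`, starting at `j`, until `k` is reached again (`true`) or
a number smaller than `k` is reached (`false`). -/
def walk (t : List ℕ) (k : ℕ) : ℕ → ℕ → Bool
  | 0, _ => true
  | m + 1, j => if j < k then false else if j = k then true else walk t k m (t.getD j 0)

/-- The number of orbits of the permutation `t` (each orbit is counted at its least element). -/
def orbits (t : List ℕ) : ℕ :=
  (List.range t.length).countP (fun k => walk t k t.length (t.getD k 0))

/-- `D` is the planar diagram code of a knot diagram on the sphere. -/
def IsDiagram (D : PD) : Bool :=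
  D.length != 0 && (labels D).all (fun e => (labels D).count e == 2) &&
    orbits (strandMap (labels D)) == 2 && orbits (faceMap (labels D)) == D.length + 2

/-- The two ways of writing a crossing are identified. -/
def Cr.norm (x : Cr) : Cr :=
  if x.a < x.c ∨ (x.a = x.c ∧ x.b ≤ x.d) then x else ⟨x.c, x.d, x.a, x.b⟩

/-- Two codes are the same up to the order of the crossings and the two ways of writing each of
them. -/
def Same (D E : PD) : Prop := (D.map Cr.norm).Perm (E.map Cr.norm)

instance (D E : PD) : Decidable (Same D E) := inferInstanceAs (Decidable (List.Perm _ _))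

/-- Changing the labels of a crossing. -/
def Cr.map (f : ℕ → ℕ) (x : Cr) : Cr := ⟨f x.a, f x.b, f x.c, f x.d⟩

/-- Replace the label `y` by the label `x`. -/
def subst (y x : ℕ) (D : PD) : PD := D.map (Cr.map (fun z => if z = y then x else z))

/-- The Reidemeister moves (and change of labels), as local replacements: in `r1a`, `r1b`, `r2`
the crossings which disappear are followed by the rest `D` of the code, in which edges that
become one edge get the same label.  They are only used between two knot diagrams (`Step`), so
that no closed component is lost and every label occurs twice afterwards. -/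
inductive Move : PD → PD → Prop
  /-- change of labels -/
  | relabel (f : ℕ → ℕ) (D : PD)
      (hf : ∀ x ∈ labels D, ∀ y ∈ labels D, f x = f y → x = y) : Move D (D.map (Cr.map f))
  /-- Reidemeister I: a loop is removed, the edges `x` and `y` become one -/
  | r1a (e x y : ℕ) (D : PD) : Move (⟨e, e, x, y⟩ :: D) (subst y x D)
  /-- Reidemeister I: a loop is removed, the edges `x` and `y` become one -/
  | r1b (e x y : ℕ) (D : PD) : Move (⟨x, e, e, y⟩ :: D) (subst y x D)
  /-- Reidemeister II: the over strand `d, e, b` is pulled off the under strand `a, f, c` -/
  | r2 (a b c d e f : ℕ) (D : PD) :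
      Move (⟨a, e, f, d⟩ :: ⟨f, e, c, b⟩ :: D) (subst b d (subst c a D))
  /-- Reidemeister III for a top strand `t₁ t₀ t₂`, a middle strand `m₁ m₀ m₂` and a bottom strand
  `b₁ b₀ b₂`; the outer ends are `t₁ m₁ b₁ t₂ m₂ b₂` in counterclockwise order. -/
  | r3a (t₀ t₁ t₂ m₀ m₁ m₂ b₀ b₁ b₂ : ℕ) (D : PD) :
      Move (⟨m₁, t₀, m₀, t₁⟩ :: ⟨b₁, t₂, b₀, t₀⟩ :: ⟨b₀, m₂, b₂, m₀⟩ :: D)
        (⟨m₀, t₂, m₂, t₀⟩ :: ⟨b₀, t₀, b₂, t₁⟩ :: ⟨b₁, m₀, b₀, m₁⟩ :: D)
  /-- Reidemeister III for a top strand `t₁ t₀ t₂`, a middle strand `m₁ m₀ m₂` and a bottom strand
  `b₁ b₀ b₂`; the outer ends are `t₁ b₁ m₁ t₂ b₂ m₂` in counterclockwise order. -/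
  | r3b (t₀ t₁ t₂ m₀ m₁ m₂ b₀ b₁ b₂ : ℕ) (D : PD) :
      Move (⟨b₁, t₀, b₀, t₁⟩ :: ⟨m₁, t₂, m₀, t₀⟩ :: ⟨b₀, m₀, b₂, m₂⟩ :: D)
        (⟨b₀, t₂, b₂, t₀⟩ :: ⟨m₀, t₀, m₂, t₁⟩ :: ⟨b₁, m₁, b₀, m₀⟩ :: D)

/-- A move between two knot diagrams on the sphere. -/
def Step (D E : PD) : Prop :=
  IsDiagram D = true ∧ IsDiagram E = true ∧ ∃ A B, Same D A ∧ Move A B ∧ Same B E

/-- Two knot diagrams are equivalent (are diagrams of the same knot) when they are connected by a
sequence of Reidemeister moves through knot diagrams on the sphere. -/
def Equivalent (D E : PD) : Prop := Relation.EqvGen Step D E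

/-! ### Closed braids -/

/-- State of the construction of a closed braid: labels of the strands at the current level, next
free label, code. -/
structure St where
  strands : List ℕ
  next : ℕ
  code : PD

/-- Adding the braid generator `σ_i` (`s = true`; the strand which goes from position `i` to
position `i+1` is over) or `σ_i⁻¹` (`s = false`; it is under); positions are counted from `0`. With
`x`, `y` the labels of the strands at the positions `i`, `i+1` below the crossing and `u`, `v`
those above it, the counterclockwise order of the ends, starting with `y`, is `y, v, u, x`. -/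
def St.add (q : St) (g : ℕ × Bool) : St :=
  let x := q.strands.getD g.1 0
  let y := q.strands.getD (g.1 + 1) 0
  let u := q.next
  let v := q.next + 1
  ⟨(q.strands.set g.1 u).set (g.1 + 1) v, q.next + 2,
    q.code ++ [if g.2 then ⟨y, v, u, x⟩ else ⟨x, y, v, u⟩]⟩

/-- The standard diagram of the closure of a braid on `n` strands: the edges at the top are joined
to the edges at the bottom. -/
def braidClosure (n : ℕ) (w : List (ℕ × Bool)) : PD :=
  let q := w.foldl St.add ⟨List.range n, n, []⟩
  (List.range n).foldl (fun D i => subst (q.strands.getD i 0) i D) q.code

/-- The knot `8_18`: the closure of the 3-braid `(σ₁ σ₂⁻¹)⁴`. -/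
def knot818 : PD :=
  braidClosure 3 [(0, true), (1, false), (0, true), (1, false), (0, true), (1, false), (0, true),
    (1, false)]

/-! ### Matched diagrams -/

/-- A crossing with an orientation of its strands: `u = true` when the under strand goes from `a`
to `c` and `v = true` when the over strand goes from `b` to `d`. -/
structure OCr where
  x : Cr
  u : Bool
  v : Bool
  deriving DecidableEq

/-- The two edges along which the strands enter a crossing. -/
def OCr.ins (p : OCr) : List ℕ :=
  [if p.u then p.x.a else p.x.c, if p.v then p.x.b else p.x.d]

/-- The two edges along which the strands leave a crossing. -/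
def OCr.outs (p : OCr) : List ℕ :=
  [if p.u then p.x.c else p.x.a, if p.v then p.x.d else p.x.b]

/-- `P`, `Q` are two consecutive crossings of a twist region: they are joined by the two edges
`e`, `f`, which bound a bigon, and each of `e`, `f` is over at one end and under at the other. -/
def Clasp (P Q : Cr) (e f : ℕ) : Prop :=
  ∃ a b c d, (P = ⟨a, e, f, d⟩ ∧ Q = ⟨c, f, e, b⟩) ∨ (P = ⟨e, f, a, d⟩ ∧ Q = ⟨f, e, c, b⟩)

/-- A matched pair of crossings: a clasp through which the two strands run in opposite
directions, i.e. exactly one of the edges `e`, `f` enters `P`. -/
def MatchedPair (P Q : OCr) : Prop :=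
  ∃ e f, Clasp P.x Q.x e f ∧ ((e ∈ P.ins ∧ f ∈ P.outs) ∨ (e ∈ P.outs ∧ f ∈ P.ins))

/-- The code `D` is a matched diagram: for some (equivalently, for a knot, each) orientation its
crossings can be partitioned into matched pairs. -/
def Matched (D : PD) : Prop :=
  ∃ L : List (OCr × OCr),
    Same D (L.flatMap (fun p => [p.1.x, p.2.x])) ∧
    (L.flatMap (fun p => p.1.ins ++ p.2.ins)).Perm (L.flatMap (fun p => p.1.outs ++ p.2.outs)) ∧
    ∀ p ∈ L, MatchedPair p.1 p.2

end Pool.Agent.R805.Bip
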